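import Pool.Agent.N483.KM.StmZ
import Pool.Agent.N438.KM.LWC
import Pool.Agent.R751.MB.Ten

/-!
# KM/LSE, LPR, LBO: log-concave weights: sections, products, bodies

Author: helper558. `exp_int` is copied from `Pool.Agent.N383.KM.Vol` (helper383).
-/

set_option autoImplicit false

namespace Pool.Agent.N558.KM

open MeasureTheory Set Filter Topology
open scoped ENNReal InnerProductSpace
open Pool.Agent.R754.KG (E)
open Pool.Agent.Y506.PV (CcW ind LCn)
open Pool.Agent.Y506.RG (EW VW Adm)
open Pool.Agent.N483.KM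

/-! ### decay -/

theorem exp_int (N : ℕ) {b : ℝ} (hb : 0 < b) : Integrable fun x : E N => Real.exp (-(b * ‖x‖)) := by
  have h1 : Integrable fun x : E N => (1 + ‖x‖) ^ (-((N : ℝ) + 1)) := by
    refine integrable_one_add_norm ?_
    rw [finrank_euclideanSpace_fin]
    linarith
  obtain ⟨C, hC⟩ : ∃ C : ℝ, C = ((N + 1).factorial : ℝ) / b ^ (N + 1) * Real.exp b := ⟨_, rfl⟩
  refine Integrable.mono' (h1.const_mul C) (by fun_prop) (Eventually.of_forall fun x => ?_)
  rw [Real.norm_of_nonneg (Real.exp_pos _).le]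
  have hs : 0 ≤ ‖x‖ := norm_nonneg x
  have h2 := Real.pow_div_factorial_le_exp (b * (1 + ‖x‖)) (by positivity) (N + 1)
  have h3 : (1 + ‖x‖) ^ (-((N : ℝ) + 1)) = ((1 + ‖x‖) ^ (N + 1))⁻¹ := by
    rw [Real.rpow_neg (by positivity)]
    congr 1
    exact_mod_cast Real.rpow_natCast (1 + ‖x‖) (N + 1)
  rw [h3, hC]
  have h4 : Real.exp (b * (1 + ‖x‖)) = Real.exp b * Real.exp (b * ‖x‖) := by
    rw [← Real.exp_add]
    congr 1
    ring
  have hf : (0 : ℝ) < (N + 1).factorial := by exact_mod_cast Nat.factorial_pos _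
  have hp : 0 < (1 + ‖x‖) ^ (N + 1) := by positivity
  rw [div_le_iff₀ hf, mul_pow, h4] at h2
  rw [Real.exp_neg]
  have he := Real.exp_pos (b * ‖x‖)
  have hbp : 0 < b ^ (N + 1) := by positivity
  rw [inv_le_iff_one_le_mul₀ he]
  have h5 : ((N + 1).factorial : ℝ) / b ^ (N + 1) * Real.exp b * ((1 + ‖x‖) ^ (N + 1))⁻¹ *
      Real.exp (b * ‖x‖) = (Real.exp b * Real.exp (b * ‖x‖) * (N + 1).factorial) /
        (b ^ (N + 1) * (1 + ‖x‖) ^ (N + 1)) := by
    field_simp
  rw [h5, le_div_iff₀ (by positivity), one_mul]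
  exact h2

/-- measurable functions with exponential decay have second moments -/
theorem int_decay {N : ℕ} {v : E N → ℝ} (hm : Measurable v) (h0 : ∀ x, 0 ≤ v x) {C b : ℝ}
    (hb : 0 < b) (h : ∀ x, v x ≤ C * Real.exp (-(b * ‖x‖))) :
    Integrable v ∧ Integrable fun x => (1 + ‖x‖ ^ 2) * v x := by
  constructor
  · refine Integrable.mono' ((exp_int N hb).const_mul C) hm.aestronglyMeasurable
      (Eventually.of_forall fun x => ?_)
    rw [Real.norm_of_nonneg (h0 x)]
    exact h x
  · obtain ⟨d, hd⟩ : ∃ d : ℝ, d = b / 2 := ⟨_, rfl⟩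
    have hd0 : 0 < d := by rw [hd]; linarith
    refine Integrable.mono' ((exp_int N hd0).const_mul (C * (1 + 2 / d ^ 2)))
      ((by fun_prop : Measurable fun x : E N => 1 + ‖x‖ ^ 2).mul hm).aestronglyMeasurable
      (Eventually.of_forall fun x => ?_)
    rw [Real.norm_of_nonneg (mul_nonneg (by positivity) (h0 x))]
    obtain ⟨s, hs⟩ : ∃ s, s = ‖x‖ := ⟨_, rfl⟩
    have hs0 : 0 ≤ s := by rw [hs]; exact norm_nonneg x
    have h1 := h x
    rw [← hs] at h1 ⊢
    have h2 : (d * s) ^ 2 / 2 ≤ Real.exp (d * s) := by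
      have := Real.pow_div_factorial_le_exp (d * s) (by positivity) 2
      simpa using this
    have h3 : 1 ≤ Real.exp (d * s) := Real.one_le_exp (by positivity)
    have h4 : 1 + s ^ 2 ≤ (1 + 2 / d ^ 2) * Real.exp (d * s) := by
      have h5 : s ^ 2 = 2 / d ^ 2 * ((d * s) ^ 2 / 2) := by field_simp
      have h6 : 2 / d ^ 2 * ((d * s) ^ 2 / 2) ≤ 2 / d ^ 2 * Real.exp (d * s) :=
        mul_le_mul_of_nonneg_left h2 (by positivity)
      rw [← h5] at h6
      linarith
    have h7 : Real.exp (-(b * s)) = Real.exp (-(d * s)) * Real.exp (-(d * s)) := by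
      rw [← Real.exp_add, hd]
      congr 1
      ring
    have h8 : Real.exp (d * s) * Real.exp (-(d * s)) = 1 := by
      rw [← Real.exp_add, add_neg_cancel, Real.exp_zero]
    calc (1 + s ^ 2) * v x ≤ ((1 + 2 / d ^ 2) * Real.exp (d * s)) * (C * Real.exp (-(b * s))) :=
          mul_le_mul h4 h1 (h0 x) (by positivity)
      _ = C * (1 + 2 / d ^ 2) * Real.exp (-(d * s)) *
          (Real.exp (d * s) * Real.exp (-(d * s))) := by rw [h7]; ring
      _ = _ := by rw [h8, mul_one]

/-! ### sections -/

theorem t_LSE : S_LSE := by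
  intro N j n e w t hw
  obtain ⟨C, c, hC, hc, hdec⟩ := Pool.Agent.N438.KM.t_LWD n w hw
  obtain ⟨e', he'⟩ : ∃ e' : (E N × E j) ≃L[ℝ] E n, e' = e.toContinuousLinearEquiv := ⟨_, rfl⟩
  have hee : ∀ p, e p = e' p := fun p => by rw [he']; rfl
  obtain ⟨K, hK, hKb⟩ : ∃ K : ℝ, 0 < K ∧ ∀ p : E N × E j, ‖p‖ ≤ K * ‖e' p‖ := by
    refine ⟨‖(e'.symm : E n →L[ℝ] E N × E j)‖ + 1, by positivity, fun p => ?_⟩
    have h1 := (e'.symm : E n →L[ℝ] E N × E j).le_opNorm (e' p)
    have h2 : (e'.symm : E n →L[ℝ] E N × E j) (e' p) = p := e'.symm_apply_apply p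
    rw [h2] at h1
    nlinarith [norm_nonneg (e' p)]
  have hcont : ∀ s : E j, Continuous fun x : E N => e' (x, s) := fun s =>
    e'.continuous.comp (by fun_prop)
  have hmeas : ∀ s : E j, Measurable fun x : E N => w (e' (x, s)) := fun s =>
    hw.adm.meas.comp (hcont s).measurable
  have hd2 : ∀ (s : E j) (x : E N), w (e' (x, s)) ≤ C * Real.exp (-(c / K * ‖x‖)) := by
    intro s x
    refine (hdec _).trans (mul_le_mul_of_nonneg_left (Real.exp_le_exp.2 (neg_le_neg ?_)) hC.le)
    have h1 : ‖x‖ ≤ ‖((x, s) : E N × E j)‖ := le_max_left _ _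
    have h2 := h1.trans (hKb (x, s))
    calc c / K * ‖x‖ ≤ c / K * (K * ‖e' (x, s)‖) := mul_le_mul_of_nonneg_left h2 (by positivity)
      _ = c * ‖e' (x, s)‖ := by field_simp
  have hint := fun s => int_decay (hmeas s) (fun x => hw.adm.nonneg _) (div_pos hc hK) (hd2 s)
  simp only [hee]
  refine ⟨(hint t).1, ?_, fun hpos => ⟨⟨fun x => hw.adm.nonneg _, (hint t).2, hpos, hmeas t⟩,
    ?_, ?_, ?_⟩⟩
  · -- some section has positive mass
    by_contra hcon
    push Not at hcon
    have h0 : ∀ s : E j, ∫ x, w (e' (x, s)) = 0 := by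
      intro s
      rw [integral_eq_lintegral_of_nonneg_ae (Eventually.of_forall fun x => hw.adm.nonneg _)
        (hmeas s).aestronglyMeasurable, hcon s]
      simp
    obtain ⟨m, hm, h1, -⟩ := Pool.Agent.R751.MB.Ten.haar e'
    have h2 := h1 w
    have hp := hw.adm.pos
    have hne : ∫ p, w (e' p) ∂((volume : Measure (E N)).prod (volume : Measure (E j))) ≠ 0 := by
      intro h3
      rw [h3, mul_zero] at h2
      exact hp.ne' h2
    have hi : Integrable (fun p => w (e' p)) ((volume : Measure (E N)).prod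
        (volume : Measure (E j))) := by
      by_contra h3
      exact hne (integral_undef h3)
    rw [integral_prod_symm _ hi] at hne
    apply hne
    simp only [h0]
    simp
  · -- log-concave
    intro x y s h0 h1
    have h2 := hw.lc (e' (x, t)) (e' (y, t)) s h0 h1
    have h3 : (1 - s) • e' (x, t) + s • e' (y, t) = e' ((1 - s) • x + s • y, t) := by
      rw [← map_smul, ← map_smul, ← map_add]
      congr 1
      ext1
      · simp
      · simp only [Prod.smul_mk, Prod.mk_add_mk]
        module
    rw [h3] at h2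
    exact h2
  · -- superlevel sets
    intro b hb
    have h1 := hw.comp b hb
    obtain ⟨R, hR⟩ := h1.isBounded.exists_norm_le
    refine Metric.isCompact_of_isClosed_isBounded (h1.isClosed.preimage (hcont t)) ?_
    refine (Metric.isBounded_closedBall (x := (0 : E N)) (r := K * R)).subset fun x hx => ?_
    rw [mem_closedBall_zero_iff]
    have h2 : ‖x‖ ≤ ‖((x, t) : E N × E j)‖ := le_max_left _ _
    exact (h2.trans (hKb (x, t))).trans (mul_le_mul_of_nonneg_left (hR _ hx) hK.le)
  · obtain ⟨B, hB⟩ := hw.bdd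
    exact ⟨B, fun x => hB _⟩

/-! ### products -/

theorem t_LPR : S_LPR := by
  intro a b n e w u hw hu
  obtain ⟨e', he'⟩ : ∃ e' : (E a × E b) ≃L[ℝ] E n, e' = e.toContinuousLinearEquiv := ⟨_, rfl⟩
  have hee : ∀ z, e.symm z = e'.symm z := fun z => by rw [he']; rfl
  simp only [hee]
  obtain ⟨B, hB⟩ := hw.bdd
  obtain ⟨B', hB'⟩ := hu.bdd
  have hwa : Pool.Agent.R751.MB.Adm w := ⟨hw.adm.nonneg, hw.adm.int, hw.adm.pos, hw.adm.meas⟩
  have hua : Pool.Agent.R751.MB.Adm u := ⟨hu.adm.nonneg, hu.adm.int, hu.adm.pos, hu.adm.meas⟩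
  have hadm := Pool.Agent.R751.MB.Ten.adm_W e' hwa hua
  refine ⟨⟨hadm.nonneg, hadm.int, hadm.pos, hadm.meas⟩, ?_, ?_, ?_⟩
  · intro x y t h0 h1
    obtain ⟨p, hp⟩ : ∃ p, p = e'.symm x := ⟨_, rfl⟩
    obtain ⟨q, hq⟩ : ∃ q, q = e'.symm y := ⟨_, rfl⟩
    have h2 : e'.symm ((1 - t) • x + t • y) = (1 - t) • p + t • q := by
      rw [map_add, map_smul, map_smul, hp, hq]
    beta_reduce
    rw [h2, ← hp, ← hq]
    have h3 := hw.lc p.1 q.1 t h0 h1
    have h4 := hu.lc p.2 q.2 t h0 h1
    rw [Real.mul_rpow (hw.adm.nonneg _) (hu.adm.nonneg _),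
      Real.mul_rpow (hw.adm.nonneg _) (hu.adm.nonneg _)]
    calc w p.1 ^ (1 - t) * u p.2 ^ (1 - t) * (w q.1 ^ t * u q.2 ^ t)
        = (w p.1 ^ (1 - t) * w q.1 ^ t) * (u p.2 ^ (1 - t) * u q.2 ^ t) := by ring
      _ ≤ w ((1 - t) • p.1 + t • q.1) * u ((1 - t) • p.2 + t • q.2) :=
        mul_le_mul h3 h4 (mul_nonneg (Real.rpow_nonneg (hu.adm.nonneg _) _)
          (Real.rpow_nonneg (hu.adm.nonneg _) _)) (hw.adm.nonneg _)
      _ = _ := rfl
  · intro c hc
    -- the set in the product space
    have hcpt : IsCompact {p : E a × E b | c ≤ w p.1 * u p.2} := by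
      have hB1 : 0 < max B 1 := lt_of_lt_of_le one_pos (le_max_right _ _)
      have hB2 : 0 < max B' 1 := lt_of_lt_of_le one_pos (le_max_right _ _)
      have hcl : IsClosed {p : E a × E b | c ≤ w p.1 * u p.2} := by
        have h1 : {p : E a × E b | c ≤ w p.1 * u p.2} = ⋂ α : {α : ℝ // 0 < α},
            ((Prod.fst ⁻¹' {x | α.1 ≤ w x}) ∪ (Prod.snd ⁻¹' {y | c / α.1 ≤ u y}) :
              Set (E a × E b)) := by
          ext p
          simp only [mem_ofPred_eq, mem_iInter, mem_union, mem_preimage, Subtype.forall]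
          constructor
          · intro h α hα
            by_contra hcon
            push Not at hcon
            obtain ⟨h2, h3⟩ := hcon
            rw [lt_div_iff₀ hα] at h3
            have h4 := hu.adm.nonneg p.2
            have h5 : w p.1 * u p.2 ≤ α * u p.2 := mul_le_mul_of_nonneg_right h2.le h4
            linarith [mul_comm (u p.2) α]
          · intro h
            by_contra hcon
            push Not at hcon
            have h4 := hu.adm.nonneg p.2
            have h5 := hw.adm.nonneg p.1
            -- choose α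
            obtain ⟨α, hα, h6, h7⟩ : ∃ α : ℝ, 0 < α ∧ w p.1 < α ∧ α * u p.2 < c := by
              rcases h4.eq_or_lt with h8 | h8
              · refine ⟨w p.1 + 1, by linarith, by linarith, ?_⟩
                rw [← h8, mul_zero]
                exact hc
              · have h9 : w p.1 < c / u p.2 := by
                  rw [lt_div_iff₀ h8]
                  exact hcon
                refine ⟨(w p.1 + c / u p.2) / 2, ?_, by linarith, ?_⟩
                · have : 0 < c / u p.2 := div_pos hc h8
                  linarith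
                · have h10 : (w p.1 + c / u p.2) / 2 < c / u p.2 := by linarith
                  calc (w p.1 + c / u p.2) / 2 * u p.2 < c / u p.2 * u p.2 :=
                      mul_lt_mul_of_pos_right h10 h8
                    _ = c := by field_simp
            rcases h α hα with h11 | h11
            · linarith
            · rw [div_le_iff₀ hα] at h11
              linarith [mul_comm (u p.2) α]
        rw [h1]
        refine isClosed_iInter fun α => ?_
        exact ((hw.comp _ α.2).isClosed.preimage continuous_fst).union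
          ((hu.comp _ (div_pos hc α.2)).isClosed.preimage continuous_snd)
      refine IsCompact.of_isClosed_subset ((hw.comp (c / max B' 1) (div_pos hc hB2)).prod
        (hu.comp (c / max B 1) (div_pos hc hB1))) hcl fun p hp => ?_
      change c ≤ w p.1 * u p.2 at hp
      have h4 := hu.adm.nonneg p.2
      have h5 := hw.adm.nonneg p.1
      constructor
      · change c / max B' 1 ≤ w p.1
        rw [div_le_iff₀ hB2]
        exact hp.trans (mul_le_mul_of_nonneg_left ((hB' _).trans (le_max_left _ _)) h5)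
      · change c / max B 1 ≤ u p.2
        rw [div_le_iff₀ hB1, mul_comm]
        exact hp.trans (mul_le_mul_of_nonneg_right ((hB _).trans (le_max_left _ _)) h4)
    have h2 : {z : E n | c ≤ w (e'.symm z).1 * u (e'.symm z).2} =
        e' '' {p : E a × E b | c ≤ w p.1 * u p.2} := by
      ext z
      constructor
      · intro h
        exact ⟨e'.symm z, h, e'.apply_symm_apply z⟩
      · rintro ⟨p, hp, rfl⟩
        change c ≤ w (e'.symm (e' p)).1 * u (e'.symm (e' p)).2
        rw [e'.symm_apply_apply]
        exact hp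
    rw [h2]
    exact hcpt.image e'.continuous
  · refine ⟨max B 0 * max B' 0, fun z => ?_⟩
    exact mul_le_mul ((hB _).trans (le_max_left _ _)) ((hB' _).trans (le_max_left _ _))
      (hu.adm.nonneg _) (le_max_right _ _)

/-! ### bodies -/

theorem t_LBO : S_LBO := by
  intro n K hK hcv hint
  have hvol : 0 < volume K :=
    lt_of_lt_of_le (isOpen_interior.measure_pos volume hint) (measure_mono interior_subset)
  obtain ⟨R, hR⟩ := hK.isBounded.exists_norm_le
  refine ⟨⟨fun x => indicator_nonneg (fun _ _ => zero_le_one) x, ?_, ?_,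
    measurable_const.indicator hK.measurableSet⟩, ?_, ?_, ?_⟩
  · have h1 : (fun x : E n => (1 + ‖x‖ ^ 2) * ind K x) = K.indicator
        fun x => 1 + ‖x‖ ^ 2 := by
      funext x
      unfold ind
      by_cases hx : x ∈ K
      · simp [hx]
      · simp [hx]
    rw [h1, integrable_indicator_iff hK.measurableSet]
    exact ContinuousOn.integrableOn_compact hK (by fun_prop)
  · unfold ind
    rw [integral_indicator hK.measurableSet]
    simp only [integral_const, smul_eq_mul, mul_one]
    rw [measureReal_restrict_apply MeasurableSet.univ, univ_inter]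
    exact ENNReal.toReal_pos hvol.ne' hK.measure_lt_top.ne
  · intro x y t h0 h1
    unfold ind
    have hnn : 0 ≤ K.indicator (fun _ => (1 : ℝ)) ((1 - t) • x + t • y) :=
      indicator_nonneg (fun _ _ => zero_le_one) _
    by_cases hx : x ∈ K
    · by_cases hy : y ∈ K
      · have hz : (1 - t) • x + t • y ∈ K := hcv hx hy (by linarith) h0.le (by ring)
        simp [hx, hy, hz]
      · rw [indicator_of_notMem hy, Real.zero_rpow h0.ne', mul_zero]
        exact hnn
    · rw [indicator_of_notMem hx, Real.zero_rpow (by linarith), zero_mul]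
      exact hnn
  · intro c hc
    by_cases h1 : c ≤ 1
    · have h2 : {x | c ≤ ind K x} = K := by
        ext x
        unfold ind
        by_cases hx : x ∈ K
        · simp [hx, h1]
        · simp [hx, hc]
      rw [h2]
      exact hK
    · have h2 : {x | c ≤ ind K x} = ∅ := by
        ext x
        unfold ind
        push Not at h1
        by_cases hx : x ∈ K
        · simp [hx, h1]
        · simp [hx, hc]
      rw [h2]
      exact isCompact_empty
  · refine ⟨1, fun x => ?_⟩
    unfold ind
    exact indicator_le_self' (fun _ _ => zero_le_one) x |>.trans le_rfl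

end Pool.Agent.N558.KM
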